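import Pool.Agent.Lib.MP_12eaff_co.Frz.H.M1

set_option autoImplicit false
set_option linter.unusedSectionVars false

namespace Pool.Agent.Lib.MP_12eaff_co.Frz.Acc2

open Finset
open scoped Classical

namespace Fr

variable {V : Type} [Fintype V] {X : Fr V} {D : ℕ} {f : V → ℕ} {a b k l i : ℕ} {h w : V}

theorem rootPy (ok : X.OKz) (la : a < D) (lb : b < D) (ab : a ≠ b)
    (p : l = 2 ∧ k = 5 ∨ l = 3 ∧ k = 4 ∨ l = 5 ∧ k = 3 ∨ l = 6 ∧ k = 2)
    (ck : (X.Nb f a b).card = k) (ca : (if 4 ≤ k then 2 else 1) ≤ (X.Na f a).card)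
    (cb : (if 4 ≤ k then 2 else 1) ≤ (X.Na f b).card) :
    ∃ c d, c.l = l ∧ X.Wy D c d f ∧ X.Ry c d := by
  have e : X.Na f a ∪ X.Na f b = X.Nb f a b := by
    ext m
    rw [mem_union, mem_Na, mem_Na, mem_Nb]
    tauto
  obtain ⟨T, t1, t2, t3, t4⟩ := split2 ca cb (by rw [e, ck]; split_ifs <;> omega)
  rw [e] at t3 t4
  set R := X.Nb f a b with hR
  have TR : T ⊆ R := t1.trans (Na_Nb a b)
  have RF : R ⊆ X.F := filter_subset _ _
  have cT := card_sdiff_add_card_eq_card TR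
  have cF := card_sdiff_add_card_eq_card RF
  have cn := ok.card
  obtain ⟨Q, q1, q2, q3⟩ : ∃ Q ⊆ X.F \ R, (2 ≤ T.card ∧ 3 ≤ k ∨ 4 ≤ Q.card) ∧
      (2 ≤ (R \ T).card ∧ 3 ≤ k ∨ 4 ≤ ((X.F \ R) \ Q).card) := by
    by_cases i : 2 ≤ T.card ∧ 3 ≤ k
    · exact ⟨∅, empty_subset _, .inl i, .inr (by rw [sdiff_empty]; omega)⟩
    by_cases j : 2 ≤ (R \ T).card ∧ 3 ≤ k
    · exact ⟨_, Subset.rfl, .inr (by omega), .inl j⟩
    obtain ⟨Q, q1, q2⟩ := exists_subset_card_eq (show 4 ≤ (X.F \ R).card by omega)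
    have := card_sdiff_add_card_eq_card q1
    exact ⟨Q, q1, .inr q2.ge, .inr (by omega)⟩
  let σ : V → ℕ := fun m => if m ∈ T ∪ Q then a else b
  have sa : ∀ m, σ m = a ↔ m ∈ T ∪ Q := fun m => by
    simp only [σ]; split_ifs with j <;> simp [j, ab.symm]
  have sb : ∀ m, σ m = b ↔ m ∉ T ∪ Q := fun m => by
    simp only [σ]; split_ifs with j <;> simp [j, ab]
  have nQ : ∀ m ∈ R, m ∉ Q := fun m i j => (mem_sdiff.1 (q1 j)).2 i
  have Ta : (R.filter fun m => σ m = a) = T := by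
    ext m
    rw [mem_filter, sa, mem_union]
    exact ⟨fun j => j.2.resolve_right (nQ m j.1), fun j => ⟨TR j, .inl j⟩⟩
  have Tb : (R.filter fun m => σ m = b) = R \ T := by
    ext m
    rw [mem_filter, sb, mem_union, mem_sdiff]
    exact and_congr_right fun j => ⟨fun r t => r (.inl t), fun r t => t.elim r (nQ m j)⟩
  have Qa := card_le_card (s := Q) (t := (X.F \ R).filter fun m => σ m = a) fun m i =>
    mem_filter.2 ⟨q1 i, (sa m).2 (mem_union_right _ i)⟩
  have Qb := card_le_card (s := (X.F \ R) \ Q) (t := (X.F \ R).filter fun m => σ m = b) fun m i =>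
    mem_filter.2 ⟨(mem_sdiff.1 i).1, (sb m).2 fun j => (mem_union.1 j).elim
      (fun r => (mem_sdiff.1 (mem_sdiff.1 i).1).2 (TR r)) (mem_sdiff.1 i).2⟩
  have both : ∀ u ∈ X.F \ R, X.See f u a ∧ X.See f u b := fun u i =>
    not_not.1 fun j => (mem_sdiff.1 i).2 (mem_Nb.2 ⟨(mem_sdiff.1 i).1, j⟩)
  refine ⟨⟨l, k, 0, a, b, σ, fun κ => (R.filter fun m => σ m = κ).card, X.F⟩, ⟨R, ∅, X.pn0 f σ R⟩,
    rfl, ⟨.inr (.inr p), fun _ => ⟨la, lb⟩, RF, Subset.rfl, fun z m j => mem_pn0.1 j, fun m => ?_,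
    fun j => by dsimp only at j; omega, fun j => by dsimp only at j; omega, fun _ => rfl,
    fun _ => ck, fun j => by simp only [Sy.S] at j; omega,
    fun _ => ⟨ab, fun m i z s => mem_pn0.2 ⟨i, s, fun r => ?_⟩, fun κ i => ⟨le_rfl, ?_⟩⟩,
    fun _ u i => .inl (both u i),
    fun j => by dsimp only at j; omega, fun j => by dsimp only at j; omega, fun _ y ly n n' => ?_,
    fun j => by dsimp only at j; omega⟩, fun _ κ i => ?_⟩
  · simp only [σ]; split_ifs <;> simp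
  · by_cases t : m ∈ T
    · exact (mem_Na.1 (t1 t)).2 ⟨z, s, r.trans ((sa m).2 (mem_union_left _ t))⟩
    · exact (mem_Na.1 (t3 (mem_sdiff.2 ⟨i, t⟩))).2 ⟨z, s, r.trans ((sb m).2 fun j =>
        (mem_union.1 j).elim t (nQ m i))⟩
  · dsimp only at i ⊢
    rcases i with rfl | rfl
    · rw [Ta]; split_ifs at t2 <;> omega
    · rw [Tb]; split_ifs at t4 <;> omega
  · refine le_trans ?_ (card_le_card (s := X.F \ R) fun u i => mem_Ns.2 ⟨i, fun r => ?_⟩)
    · split_ifs <;> omega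
    · exact (ok.see3 (mem_sdiff.1 i).1 (both u i).1 (both u i).2 r ab).elim n n'
  · dsimp only at i ⊢
    rcases i with rfl | rfl
    · rw [Ta]; split_ifs at t2 t4 <;> omega
    · rw [Tb]; split_ifs at t2 t4 <;> omega

theorem rootSy (la : a < D) (p : l = 1 ∧ k = 2 ∧ i = 2 ∨ l = 4 ∧ k = 4 ∧ i = 1 ∨
      7 ≤ l ∧ 4 ≤ k ∧ k ≤ 5 ∧ 1 ≤ i ∧ k + i + l = 17) {R : Finset V}
    (hs : X.Na f a ⊆ R) (rm : R ⊆ X.Nm f a) (ck : R.card = k) (ci : (X.Na f a).card = i)
    (mo : 7 ≤ l → ∀ u ∈ X.F \ R, X.Mono f u a)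
    (g1 : ∀ y < D, y ≠ a → (if l = 1 then 4 else 3) ≤ (X.Ns R f y).card)
    (g2 : l = 1 ∨ l = 4 → 6 ≤ (X.Nm f a).card) :
    ∃ c d, c.l = l ∧ X.Wy D c d f ∧ X.Ry c d := by
  have RF : R ⊆ X.F := rm.trans (filter_subset _ _)
  have s : ∀ u ∈ X.F \ R, X.See f u a := fun u j =>
    not_not.1 fun r => (mem_sdiff.1 j).2 (hs (mem_Na.2 ⟨(mem_sdiff.1 j).1, r⟩))
  refine ⟨⟨l, k, i, a, a, fun _ => a, fun _ => 0, if 7 ≤ l then X.F else R⟩,
    ⟨R, X.Na f a, X.pn0 f (fun _ => a) R⟩, rfl, ⟨.inr (.inl p),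
    fun _ => ⟨la, la⟩, ?_, ?_, fun z m j => mem_pn0.1 j, fun m => .inl rfl,
    fun j => by dsimp only at j; omega, fun j => if_neg (by dsimp only at j; omega),
    fun j => if_pos (by dsimp only at j; omega), fun _ => ck,
    fun _ => ⟨rfl, hs, ci, fun m j z i => mem_pn0.2 ⟨hs j, i, fun r => (mem_Na.1 j).2 ⟨z, i, r⟩⟩,
      fun m j => or_iff_not_imp_left.2 fun n => ?_⟩,
    fun j => by simp only [Sy.P] at j; omega, fun _ u i => .inl ⟨s u i, s u i⟩,
    fun j u i => .inl (mo j u i), fun j => by dsimp only at j; omega, fun _ y ly n _ => g1 y ly n,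
    fun j => (g2 j).trans ?_⟩, fun j => by simp only [Sy.P] at j; omega⟩
  · dsimp only; split_ifs; exacts [RF, Subset.rfl]
  · dsimp only; split_ifs; exacts [Subset.rfl, RF]
  · obtain ⟨x, x1, y, y1, xy⟩ := one_lt_card.1 (show 1 < (X.sl m).card by omega)
    by_cases e : f x = a
    · exact ⟨y, mem_pn0.2 ⟨j, y1, fun r => (mem_Nm.1 (rm j)).2 ⟨x, x1, y, y1, xy, e, r⟩⟩⟩
    · exact ⟨x, mem_pn0.2 ⟨j, x1, e⟩⟩
  · refine (card_le_card (t := R ∪ X.Nt R f a) fun m j => mem_union.2 (or_iff_not_imp_left.2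
      fun n => mem_Nt.2 ⟨mem_sdiff.2 ⟨(mem_Nm.1 j).1, n⟩, (mem_Nm.1 j).2⟩)).trans
      ((card_union_le _ _).trans (by rw [ck]))

/-- Three more members that leave three members missing every other colour. -/
theorem pick3 (ok : X.OKz) (e : X.Na f a = {h}) (m6 : 6 ≤ (X.Nm f a).card)
    (n4 : ∀ y < D, y ≠ a → 4 ≤ (X.Nb f y a).card) : ∃ W ⊆ X.Nm f a, h ∉ W ∧ W.card = 3 ∧
      ∀ y < D, y ≠ a → (W.filter fun m => ¬ X.See f m y).card + 4 ≤ (X.Nb f y a).card := by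
  have cn := ok.card
  have h1 := mem_Na.1 (e ▸ mem_singleton_self h : h ∈ X.Na f a)
  have bo : ∀ y, ∀ w ∈ X.F \ X.Nb f y a, X.See f w y ∧ X.See f w a := fun y w k =>
    not_not.1 fun r => (mem_sdiff.1 k).2 (mem_Nb.2 ⟨(mem_sdiff.1 k).1, r⟩)
  have nm : ∀ y, y ≠ a → X.F \ X.Nb f y a ⊆ X.Nm f a := fun y n w k =>
    mem_Nm.2 ⟨(mem_sdiff.1 k).1, fun r => n (ok.mono1 (mem_sdiff.1 k).1 r (bo y w k).1)⟩
  have nh : ∀ y, h ∉ X.F \ X.Nb f y a := fun y k => h1.2 (bo y h k).2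
  have ot : ∀ y y', y ≠ a → y' ≠ a → y ≠ y' → X.F \ X.Nb f y a ⊆ X.Nb f y' a :=
    fun y y' n n' ne w k => mem_Nb.2 ⟨(mem_sdiff.1 k).1, fun r => (ok.see3 (mem_sdiff.1 k).1
      (bo y w k).1 r.1 r.2 ne).elim n.symm n'.symm⟩
  have le : ∀ y, X.F.card ≤ (X.F \ X.Nb f y a).card + (X.Nb f y a).card := fun y => by
    have := le_card_sdiff (X.Nb f y a) X.F
    omega
  have sev : ∀ W : Finset V, W.card = 3 → ∀ y, ¬ (X.Nb f y a).card ≤ 6 →
      (W.filter fun m => ¬ X.See f m y).card + 4 ≤ (X.Nb f y a).card := fun W c y j => by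
    have := card_filter_le W fun m => ¬ X.See f m y
    omega
  by_cases i : ∃ y < D, y ≠ a ∧ (X.Nb f y a).card ≤ 6
  swap
  · obtain ⟨W, w1, w2⟩ := exists_subset_card_eq (show 3 ≤ ((X.Nm f a).erase h).card by
      have := pred_card_le_card_erase (s := X.Nm f a) (a := h); omega)
    exact ⟨W, w1.trans (erase_subset _ _), fun j => notMem_erase _ _ (w1 j), w2,
      fun y ly n => sev W w2 y fun j => i ⟨y, ly, n, j⟩⟩
  obtain ⟨γ, lγ, nγ, i⟩ := i
  have := le γ
  by_cases j : ∃ y < D, y ≠ a ∧ y ≠ γ ∧ (X.Nb f y a).card ≤ 6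
  swap
  · obtain ⟨W, w1, w2⟩ := exists_subset_card_eq (show 3 ≤ (X.F \ X.Nb f γ a).card by omega)
    refine ⟨W, w1.trans (nm γ nγ), fun j => nh γ (w1 j), w2, fun y ly n => ?_⟩
    by_cases t : y = γ
    · subst t
      rw [filter_false_of_mem fun m k r => r (bo y m (w1 k)).1, card_empty]
      exact (zero_add 4).le.trans (n4 y ly n)
    · exact sev W w2 y fun r => j ⟨y, ly, n, t, r⟩
  obtain ⟨δ, lδ, nδ, ne, j⟩ := j
  have := le δ
  have six : ∀ y y', y ≠ a → y' ≠ a → y ≠ y' →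
      (X.F \ X.Nb f y a).card + 1 ≤ (X.Nb f y' a).card := fun y y' n n' ne => by
    rw [← card_insert_of_notMem (nh y)]
    exact card_le_card (insert_subset (mem_Nb.2 ⟨h1.1, fun r => h1.2 r.2⟩) (ot y y' n n' ne))
  have dj : Disjoint (X.F \ X.Nb f γ a) (X.F \ X.Nb f δ a) := disjoint_left.2 fun w k k' =>
    (mem_sdiff.1 k').2 (ot γ δ nγ nδ ne.symm k)
  obtain ⟨W, w1, w2⟩ := exists_subset_card_eq (show 2 ≤ (X.F \ X.Nb f γ a).card by omega)
  obtain ⟨u, hu⟩ := card_pos.1 (show 0 < (X.F \ X.Nb f δ a).card by omega)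
  have uW : u ∉ W := fun r => disjoint_left.1 dj (w1 r) hu
  have c3 : (insert u W).card = 3 := by rw [card_insert_of_notMem uW, w2]
  refine ⟨insert u W, insert_subset (nm δ nδ hu) (w1.trans (nm γ nγ)), fun r =>
    (mem_insert.1 r).elim (fun t => nh δ (t ▸ hu)) fun t => nh γ (w1 t), c3, fun y ly n => ?_⟩
  by_cases t : y = γ
  · subst t
    have := card_le_card (s := (insert u W).filter fun m => ¬ X.See f m y) (t := {u}) fun m k =>
      mem_singleton.2 ((mem_insert.1 (mem_filter.1 k).1).resolve_right fun r =>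
        (mem_filter.1 k).2 (bo y m (w1 r)).1)
    have := six δ y nδ n ne
    rw [card_singleton] at *
    omega
  by_cases t' : y = δ
  · subst t'
    have := card_le_card (s := (insert u W).filter fun m => ¬ X.See f m y) (t := W) fun m k =>
      (mem_insert.1 (mem_filter.1 k).1).resolve_left fun r =>
        (mem_filter.1 k).2 (r ▸ (bo y u hu).1)
    have := six γ y nγ n ne.symm
    omega
  · refine sev _ c3 y ?_
    have := card_le_card (union_subset (ot γ y nγ n (Ne.symm t)) (ot δ y nδ n (Ne.symm t')))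
    rw [card_union_of_disjoint dj] at this
    omega

theorem root_y (ok : X.OKz) (v : X.Vy D f) :
    ∃ c d, c.l = X.levy D f ∧ X.Wy D c d f ∧ X.Ry c d := by
  obtain ⟨-, n1, n2, n3⟩ := not_gy.1 (levy_spec (X := X) (D := D) (f := f))
  have n := levy_spec (X := X) (D := D) (f := f)
  have t := gy_of_le (le_refl (X.levy D f))
  have cn := ok.card
  generalize X.levy D f = l at n n1 n2 n3 t
  have cov : ∀ a y (R A : Finset V), X.Na f a ⊆ R → (∀ m ∈ X.Nb f y a, m ∈ R → m ∈ A) →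
      (X.Nb f y a).card ≤ A.card + (X.Ns R f y).card := fun a y R A j r =>
    (card_le_card fun m i => by
      by_cases e : m ∈ R
      · exact mem_union_left _ (r m i e)
      · have mF := (mem_Nb.1 i).1
        exact mem_union_right _ (mem_Ns.2 ⟨mem_sdiff.2 ⟨mF, e⟩, fun s =>
          (mem_Nb.1 i).2 ⟨s, not_not.1 fun t => e (j (mem_Na.2 ⟨mF, t⟩))⟩⟩)).trans
      (card_union_le _ _)
  by_cases l0 : l = 0
  · subst l0
    exact ⟨⟨0, 0, 0, 0, 0, fun _ => 0, fun _ => 0, ∅⟩, ⟨∅, ∅, ∅⟩, rfl, ⟨.inl rfl, by simp, by simp,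
      by simp, by simp, by simp, by simp, by simp, by simp, by simp, by simp [Sy.S],
      by simp [Sy.P], by simp, by simp, fun _ => n, by simp, by simp⟩, by simp [Ry, Sy.P]⟩
  rcases t.resolve_left l0 with ⟨a, la, t⟩ | ⟨a, la, b, lb, ab, t⟩ | ⟨a, la, t, t'⟩
  · have a1 := n1 a la
    have a2 := v.nA a la
    have m6 : 6 ≤ (X.Nm f a).card := by
      have := n3 a la
      have := am_le (X := X) (f := f) a
      unfold ta at t; split_ifs at t <;> omega
    obtain ⟨rfl, e⟩ | ⟨rfl, e⟩ :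
        l = 1 ∧ (X.Na f a).card = 2 ∨ l = 4 ∧ (X.Na f a).card = 1 := by
      unfold ta at t a1; split_ifs at t a1 <;> omega
    · refine rootSy la (.inl ⟨rfl, rfl, rfl⟩) Subset.rfl (Na_Nm a) e e (by omega)
        (fun y ly ne => ?_) fun _ => m6
      have := cov a y _ _ Subset.rfl fun _ _ => id
      have : 6 ≤ _ := n2 y ly a la ne
      rw [if_pos rfl]
      omega
    · obtain ⟨h, e'⟩ := card_eq_one.1 e
      obtain ⟨W, w1, w2, w3, w4⟩ := pick3 ok e' m6 fun y ly ne => n2 y ly a la ne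
      have sb : X.Na f a ⊆ insert h W := e' ▸ singleton_subset_iff.2 (mem_insert_self _ _)
      have h0 : h ∈ X.Na f a := e' ▸ mem_singleton_self h
      refine rootSy la (.inr (.inl ⟨rfl, rfl, rfl⟩)) sb (insert_subset (Na_Nm a h0) w1)
        (by rw [card_insert_of_notMem w2, w3]) e (by omega) (fun y ly ne => ?_) fun _ => m6
      have := cov a y _ (insert h (W.filter fun m => ¬ X.See f m y)) sb fun m p q => by
        refine mem_insert.2 ((mem_insert.1 q).imp_right fun r => mem_filter.2 ⟨r, fun s =>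
          (mem_Nb.1 p).2 ⟨s, not_not.1 fun t => w2 ?_⟩⟩)
        have := mem_Na.2 ⟨(mem_Nb.1 p).1, t⟩
        rw [e', mem_singleton] at this
        exact this ▸ r
      have := card_insert_le h (W.filter fun m => ¬ X.See f m y)
      have := w4 y ly ne
      rw [if_neg (by omega)]
      omega
  · have a1 := n2 a la b lb ab
    have a2 := v.nB a la b lb ab
    have a3 := n1 a la
    have a4 := n1 b lb
    have := v.nA a la
    have := v.nA b lb
    refine rootPy ok la lb ab ?_ rfl ?_ ?_ <;> unfold tn at t a1 <;> unfold ta at a3 a4 <;>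
      split_ifs at * <;> omega
  · have := n3 a la t
    have := v.mo a la
    have := v.nA a la
    have := am_le (X := X) (f := f) a
    have mo : ∀ u ∈ X.F \ X.Nm f a, X.Mono f u a := fun u i =>
      not_not.1 fun r => (mem_sdiff.1 i).2 (mem_Nm.2 ⟨(mem_sdiff.1 i).1, r⟩)
    refine rootSy la (.inr (.inr (by omega))) (Na_Nm a) Subset.rfl rfl rfl (fun _ => mo)
      (fun y ly ny => ?_) (by omega)
    have := card_le_card (s := X.F \ X.Nm f a) (t := X.Ns (X.Nm f a) f y) fun u i =>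
      mem_Ns.2 ⟨i, fun r => ny (ok.mono1 (mem_sdiff.1 i).1 (mo u i) r)⟩
    have := le_card_sdiff (X.Nm f a) X.F
    split_ifs <;> omega

end Fr

end Pool.Agent.Lib.MP_12eaff_co.Frz.Acc2
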