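import Pool.Agent.Lib.MP_12eaff_co.Frz.H.St
import Pool.Agent.Lib.MP_12eaff_co.Frz.G.Ifc6

set_option autoImplicit false
set_option linter.unusedSectionVars false

namespace Pool.Agent.Lib.MP_12eaff_co.Frz.Acc2

open Finset Pool.Agent.Lib.MP_12eaff_co.Frz.BK PV Tr
open scoped Classical

variable {V : Type} [Fintype V] {G : SimpleGraph V} {D : ℕ}

namespace Cy

variable {C : Cy G D}

/-- The tree with its states; `L` are the late vertices. -/
structure Tw (C : Cy G D) (T : Tr (PG G C.U C.P) D) (st : PV V → C.St)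
    (L : Finset (PV V)) : Prop where
  a : IsB T
  dm : T.Dm = PD C.U C.P
  s2 : T.S2 = ∅
  r : C.Root (st T.r)
  z : ∀ v ∈ T.R, v = inl (st v).z ∧ T.p v = inl (st v).q ∧ T.col v = C.rules.col (st v)
  nx : ∀ v ∈ T.R, v ≠ T.r → (st v).dat = (st (T.p v)).dat ∨
    v ∉ T.O (T.p v) ∧ ∃ K w, (st (T.p v)).Pass v.fst (st v) K w
  px : ∀ v ∈ T.R, v ≠ T.r → v ∉ T.O (T.p v) → ∃ K w, (st (T.p v)).Pass v.fst (st v) K w
  clo : ∀ v ∈ T.R, ∀ e t K w, (st v).Pass e t K w → inl e ∈ T.R ∨ inl e ∈ L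
  late : ∀ e ∈ L, e ∉ T.R

theorem exists_tw (hd : ∀ v, (nb G v).card ≤ D + 1) (s0 : C.St) (h0 : C.Root s0) {ι : Type}
    (mb : ι → PV V → Prop) (cl : PV V → ι) (hcl : ∀ u, mb (cl u) u)
    (E : PV V × PV V × (PV V → ℕ) → ℕ → PV V × PV V × (PV V → ℕ) → ℕ → PV V → Prop)
    (pf : PV V → PV V → ℕ) : ∃ T st q, Tw C T st (T.Late mb cl q (T.El E)) ∧
      Own T mb cl q (T.El E) pf := by
  obtain ⟨T, st, q, a, b, c, _, e, f, g, k, l⟩ := C.rules.exists_tr hd C.rel mb cl hcl E pf s0 h0.1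
  have key : ∀ v ∈ T.R, v ≠ T.r → (st v).dat = (st (T.p v)).dat ∧ v ∈ T.O (T.p v) ∨
      v ∉ T.O (T.p v) ∧ ∃ K w, (st (T.p v)).Pass v.fst (st v) K w := fun v hv hr => by
    obtain ⟨a, rfl, _⟩ := PD_real (b ▸ T.real v hv)
    obtain ⟨k1, k2 | k2⟩ := k a hv hr
    · exact .inl ⟨congrArg St.dat (k1.trans (St.nx_arc k2.1)) |>.trans rfl, k2.2⟩
    · have j : T.d (inl a) = T.d (T.p (inl a)) + 3 := k2.2
      refine .inr ⟨fun o => ?_, k1 ▸ St.nx_pass (mem_filter.1 k2.1).2⟩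
      have := (T.clo _ (T.p_mem _ hv hr) _ o).2
      omega
  refine ⟨T, st, q, ⟨a, b, c, e ▸ h0, g, fun v hv hr => (key v hv hr).imp_left And.left,
    fun v hv hr n => ((key v hv hr).resolve_left fun j => n j.2).2, fun v hv e t K w p => ?_,
    fun e k => (mem_filter.1 k).2.2.1⟩, f⟩
  obtain ⟨l1, l2, _, l3⟩ := l v hv e (mem_filter.2 ⟨mem_univ _, t, K, w, p⟩)
  refine or_iff_not_imp_left.2 fun n => mem_filter.2 ⟨mem_univ _, fun j => ?_, n, l1, l2, v, hv,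
    fun j => n (l3 j).1⟩
  exact (C.mem_sl.1 p.he).2 (PD_l.1 (b ▸ j))

variable (T : Tr (PG G C.U C.P) D) (st : PV V → C.St) (L : Finset (PV V))

/-- Clique and member of a passage. -/
noncomputable def kx (x : PV V) : Finset V × V :=
  if k : ∃ K w, (st (T.p x)).Pass x.fst (st x) K w then (k.choose, k.choose_spec.choose)
  else (∅, x.fst)

/-- Passage children. -/
noncomputable def PC : Finset (PV V) := T.R.filter fun x => x ≠ T.r ∧ x ∉ T.O (T.p x)

noncomputable def PX (K : Finset V) : Finset (PV V) := (PC T).filter fun x => (kx T st x).1 = K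

/-- Entries. -/
noncomputable def DD : Finset (V × V) := univ.filter fun p =>
  p.2 ∈ C.U ∧ inl p.1 ∈ T.R ∧ (st (inl p.1)).Ent (C.cq p.2) p.2

/-- Late exits. -/
noncomputable def LL (K : Finset V) : Finset (PV V) := L.filter fun x =>
  ∃ e, x = inl e ∧ ∃ v ∈ T.R, ∃ t w, (st v).Pass e t K w

namespace Tw

variable {T st L} (h : Tw C T st L) {v x y : PV V} {a e w m u q : V} {K : Finset V} {t : C.St}
include h

theorem col_l (hv : v ∈ T.R) (k : a ∉ C.U ∪ C.P) : T.col v (inl a) = (st v).f a := by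
  rw [(h.z v hv).2.2]; exact C.rules.col_l _ k

theorem col_r (hv : v ∈ T.R) (p : V × V) : T.col v (inr p) = (st v).port p.1 p.2 := by
  rw [(h.z v hv).2.2]; rfl

theorem z_eq (hv : inl a ∈ T.R) : (st (inl a)).z = a := (inl_injective (h.z _ hv).1).symm

theorem adj_r (hv : v ∈ T.R) (hm : m ∈ C.U) (k : G.Adj (st v).z m) :
    (PG G C.U C.P).Adj v (inr ((st v).z, m)) := by
  nth_rewrite 1 [(h.z v hv).1]
  exact ⟨rfl, (st v).one.real, hm, k⟩

theorem adj_l (hv : v ∈ T.R) (hm : m ∉ C.U ∪ C.P) (k : G.Adj (st v).z m) :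
    (PG G C.U C.P).Adj v (inl m) := by
  nth_rewrite 1 [(h.z v hv).1]
  exact (PG_real (st v).one.real hm).2 k

theorem f_par (hv : v ∈ T.R) (hr : v ≠ T.r) : (st v).f (st v).q = T.c v := by
  rw [← col_par hv hr, (h.z v hv).2.1, h.col_l hv (st v).rpar]

theorem f_base (hv : v ∈ T.R) (k : a ∉ C.U ∪ C.P) (n : inl a ∉ T.R) :
    (st v).f a = T.c (inl a) := by
  rw [← h.col_l hv k, col_base hv (fun j => k (PD_l.1 (h.dm ▸ j))) fun i => n i.mem.1]

omit h in
theorem pn_hole (hK : K ∈ C.𝒦) (s : C.St) (hm : m ∈ (C.sd K).Mv) (k : s.z ∈ (C.fr K).sl m) :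
    (s.z, m) ∈ (s.dat K).pn :=
  (s.inv K hK).hole (C.ok K hK) (s.fz hK) s.one.hole.ge hm k

/-- There is no ticket. -/
theorem notix : T.NoTix := fun y hy v hv κ l ⟨x, x1, x2, x3, x4⟩ => by
  rcases x with b | ⟨b, w⟩
  · have := C.rules.col_big (st y) (PD_l.1 (h.dm ▸ x1))
    rw [(h.z y hy).2.2] at x3; omega
  have e := (h.z v hv).1
  rw [e] at x2
  obtain ⟨rfl, _, hw, _⟩ : (st v).z = b ∧ _ := x2
  have n : (st v).z ≠ (st y).z := fun j => x4 (by rwa [e, j, ← (h.z y hy).1, ← j])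
  rw [h.col_r hy, St.port_test n] at x3
  rw [h.col_r hv] at x4
  dsimp only at x3 x4
  rcases (st y).pin_cases (st v).z w with j | ⟨_, _, j, j', _⟩
  · omega
  have hK := (C.hU w hw).1
  obtain ⟨j1, j2, _⟩ := ((st y).inv _ hK).p1 _ _ j
  exact x4 ((St.port_pn hK (pn_hole hK _ (((st y).inv _ hK).sub j1) j2)).trans (j'.symm.trans x3))

/-- A unique port is an entry. -/
theorem dr_ent (hv : v ∈ T.R) (hx : x ∈ T.Dr v) (dm : x ∈ T.Dm) :
    ∃ w ∈ C.U, x = inr ((st v).z, w) ∧ (st v).Ent (C.cq w) w := by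
  obtain ⟨⟨a1, _, a3⟩, _, l⟩ := IsB.mem_Dr.1 hx
  rcases x with b | ⟨b, w⟩
  · have := C.rules.col_big (st v) (PD_l.1 (h.dm ▸ dm))
    rw [(h.z v hv).2.2] at l; omega
  have a2 := a1
  rw [(h.z v hv).1] at a2
  obtain ⟨rfl, _, hw, _⟩ : (st v).z = b ∧ _ := a2
  rw [h.col_r hv] at l
  have k1 : ∀ m, m ∉ C.U ∪ C.P → G.Adj (st v).z m → (st v).f m ≠ (st v).port (st v).z w :=
    fun m p q => by
      have := a3 (inl m) (h.adj_l hv p q) (by simp)
      rwa [h.col_l hv p, h.col_r hv] at this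
  have k2 : ∀ m ∈ C.U, m ≠ w → G.Adj (st v).z m →
      (st v).port (st v).z m ≠ (st v).port (st v).z w := fun m p n q => by
    have := a3 _ (h.adj_r hv p q) (by simp [n])
    rwa [h.col_r hv, h.col_r hv] at this
  dsimp only at l
  rcases (st v).port_cases (st v).z w with e | ⟨_, e, _⟩
  · rcases (st v).pin_cases (st v).z w with j | ⟨_, _, j, j', _⟩
    · omega
    rw [e, j'] at k1 k2
    exact ⟨w, hw, rfl, j, k1, fun m p n => k2 m p fun i => n (i ▸ (C.hU w hw).2)⟩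
  · have := (C.ok _ ((st v).fill (K := ∅) l k1 fun m p _ i j => ?_).1).card
    · simp [frK] at this
    · exact k2 m p (fun n => by subst n; omega) i ((St.port_pin (j ▸ l)).trans j)

theorem px_spec (hx : x ∈ PC T) :
    (st (T.p x)).Pass x.fst (st x) (kx T st x).1 (kx T st x).2 := by
  obtain ⟨a, b, c⟩ := mem_filter.1 hx
  have k := h.px x a b c
  rw [kx, dif_pos k]
  exact k.choose_spec.choose_spec

theorem px_K (hx : x ∈ PX T st K) : (st (T.p x)).Pass x.fst (st x) K (kx T st x).2 :=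
  (mem_filter.1 hx).2 ▸ h.px_spec (mem_filter.1 hx).1

theorem dat_par (hy : y ∈ T.R) (hr : y ≠ T.r) (n : y ∉ PX T st K) :
    (st y).dat K = (st (T.p y)).dat K := by
  rcases h.nx y hy hr with k | k
  · rw [k]
  · have p : y ∈ PC T := mem_filter.2 ⟨hy, hr, k.1⟩
    exact (h.px_spec p).off K fun e => n (mem_filter.2 ⟨p, e.symm⟩)

theorem dat_ind (hK : K ∈ C.𝒦) {Q : Dy V → Prop} (h0 : Q (C.d0 K))
    (h1 : ∀ x ∈ PX T st K, Q ((st (T.p x)).dat K) → Q ((st x).dat K)) (hy : y ∈ T.R) :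
    Q ((st y).dat K) := by
  refine T.ind (P := fun y => Q ((st y).dat K)) (h.r.2 K hK ▸ h0) (fun y hy hr ih => ?_) y hy
  by_cases n : y ∈ PX T st K
  exacts [h1 y n ih, h.dat_par hy hr n ▸ ih]

theorem pins_sub (hK : K ∈ C.𝒦) (hy : y ∈ T.R) : ∀ p ∈ ((st y).dat K).pn, p ∈ (C.d0 K).pn ∨
    ∃ x ∈ PX T st K, p.2 = (kx T st x).2 ∧ ((C.sd K).S → p.1 = x.fst) :=
  h.dat_ind hK (Q := fun d => ∀ p ∈ d.pn, p ∈ (C.d0 K).pn ∨
    ∃ x ∈ PX T st K, p.2 = (kx T st x).2 ∧ ((C.sd K).S → p.1 = x.fst)) (fun _ k => .inl k)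
    (fun x hx ih p k => ((h.px_K hx).step.new p k).elim (ih p) fun j => .inr ⟨x, hx, j⟩) hy

theorem en_sub (hK : K ∈ C.𝒦) (hy : y ∈ T.R) : (C.sd K).En ((st y).dat K) ⊆
    (C.sd K).En (C.d0 K) ∪ (PX T st K).image fun x => (kx T st x).2 :=
  h.dat_ind hK (Q := fun d => (C.sd K).En d ⊆
    (C.sd K).En (C.d0 K) ∪ (PX T st K).image fun x => (kx T st x).2) subset_union_left
    (fun x hx ih => (h.px_K hx).step.en.trans
      (insert_subset (mem_union_right _ (mem_image.2 ⟨x, hx, rfl⟩)) ih)) hy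

/-- Only at the exit of a passage can a pin of the hole be the colour of the parent. -/
theorem np_of (hK : K ∈ C.𝒦) (hy : y ∈ T.R) (n : y ∉ PX T st K)
    (k : ((st y).z, q) ∈ ((st y).dat K).pn) : (C.sd K).σ q ≠ (st y).f (st y).q := by
  by_cases hr : y = T.r
  · have := ((st y).inv K hK).pin_lt k
    rw [show (st y).q = (st y).z from hr ▸ h.r.1, (st y).one.hole]
    omega
  · rw [h.dat_par hy hr n] at k
    rw [h.f_par hy hr, ← col_p_self hy hr]
    nth_rewrite 2 [(h.z y hy).1]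
    rw [h.col_l (T.p_mem y hy hr) (st y).one.real]
    exact (((st (T.p y)).inv K hK).av _ _ k).symm

theorem dd_le : ∑ v ∈ T.R, (T.Dr v ∩ T.Dm).card ≤ (DD T st).card := by
  rw [← card_sigma]
  refine card_le_card_of_injOn (fun p => (p.2.fst, p.2.snd))
    (fun ⟨v, x⟩ k => ?_) fun ⟨v, x⟩ k ⟨v', x'⟩ k' e => ?_
  · obtain ⟨hv, k⟩ := mem_sigma.1 (mem_coe.1 k)
    dsimp only at hv k
    obtain ⟨k1, k2⟩ := mem_inter.1 k
    obtain ⟨w, w1, rfl, w3⟩ := h.dr_ent hv k1 k2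
    have e := (h.z v hv).1
    exact mem_coe.2 (mem_filter.2 ⟨mem_univ _, w1, e ▸ hv,
      by dsimp only [PV.fst, PV.snd]; rwa [← e]⟩)
  · obtain ⟨hv, k⟩ := mem_sigma.1 (mem_coe.1 k)
    obtain ⟨hv', k'⟩ := mem_sigma.1 (mem_coe.1 k')
    dsimp only at hv k hv' k' e
    obtain ⟨w, _, rfl, _⟩ := h.dr_ent hv (mem_inter.1 k).1 (mem_inter.1 k).2
    obtain ⟨w', _, rfl, _⟩ := h.dr_ent hv' (mem_inter.1 k').1 (mem_inter.1 k').2
    obtain ⟨e1, e2⟩ : (st v).z = (st v').z ∧ w = w' := Prod.mk.inj e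
    obtain rfl : v = v' := by rw [(h.z v hv).1, e1, ← (h.z v' hv').1]
    rw [e2]

theorem pc_le : (PC T).card ≤ ∑ e ∈ T.R, (T.CX e).card :=
  le_trans (card_le_card fun x k => by
    obtain ⟨a, b, c⟩ := mem_filter.1 k
    exact mem_biUnion.2 ⟨_, T.p_mem x a b, T.mem_CX.2 ⟨T.mem_ch.2 ⟨a, b, rfl⟩, c⟩⟩)
    card_biUnion_le

theorem ll_le : ∑ K ∈ C.𝒦, (LL T st L K).card ≤ L.card := by
  rw [← card_biUnion fun K _ K' _ n => disjoint_left.2 fun x a b => ?_]
  · exact card_le_card (biUnion_subset.2 fun K _ => filter_subset _ _)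
  obtain ⟨xL, e, rfl, v, hv, t, w, p⟩ := mem_filter.1 a
  obtain ⟨_, e', j, v', hv', t', w', p'⟩ := mem_filter.1 b
  obtain rfl := inl_injective j
  have k := pn_hole p'.hK t p'.hw (p.z.symm ▸ p'.he)
  rw [p.z, p.off K' (Ne.symm n)] at k
  have r := (C.mem_sl.1 p.he).2
  exact ((st v).inv K' p'.hK).av _ _ k (by
    rw [← p'.col, h.f_base hv r (h.late _ xL), h.f_base hv' r (h.late _ xL)])

theorem exit (hv : v ∈ T.R) (p : (st v).Pass e t K u) : inl e ∈ LL T st L K ∨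
    (e, u) ∈ (C.d0 K).pn ∨ ∃ x ∈ PX T st K, u = (kx T st x).2 ∧ ((C.sd K).S → x = inl e) := by
  refine (h.clo v hv e t K u p).symm.imp (fun k => mem_filter.2 ⟨k, e, rfl, v, hv, t, u, p⟩)
    fun k => ?_
  have i := pn_hole p.hK (st (inl e)) p.hw ((h.z_eq k).symm ▸ p.he)
  rw [h.z_eq k] at i
  refine (h.pins_sub p.hK k _ i).imp_right fun ⟨x, a, b, c⟩ => ⟨x, a, b, fun s => ?_⟩
  have j := (h.z x (mem_filter.1 (mem_filter.1 a).1).1).1
  rw [j, show e = x.fst from c s, (h.px_K a).z]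

theorem dd_spec {p : V × V} (k : p ∈ (DD T st).filter fun p => C.cq p.2 = K) :
    inl p.1 ∈ T.R ∧ (st (inl p.1)).Ent K p.2 ∧ p ∈ ((st (inl p.1)).dat K).pn := by
  obtain ⟨k1, c⟩ := mem_filter.1 k
  obtain ⟨_, _, k3, k4⟩ := mem_filter.1 k1
  rw [c] at k4
  have i := k4.pn
  rw [h.z_eq k3] at i
  exact ⟨k3, k4, i⟩

theorem countM (hK : K ∈ C.𝒦) (hv : v ∈ T.R) (en : (st v).Ent K q)
    (nq : (C.sd K).σ q ≠ (st v).f (st v).q) (mt : (st v).MT K q) :
    ((DD T st).filter fun p => C.cq p.2 = K).card ≤ 2 * (PX T st K).card +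
      2 * (LL T st L K).card := by
  obtain ⟨A, a1, a2⟩ := en.exN hK nq mt
  have b1 : (C.d0 K).pn.card ≤ (C.sd K).k + (C.sd K).i :=
    h.r.2 K hK ▸ ((st T.r).inv K hK).pn_S (C.ok K hK) ((st T.r).fz hK) mt.1
  have b2 : ((DD T st).filter fun p => C.cq p.2 = K).card ≤
      (C.d0 K).pn.card + (PX T st K).card :=
    (card_le_card (t := (C.d0 K).pn ∪ (PX T st K).image fun x => (x.fst, (kx T st x).2))
      fun p k => mem_union.2 ((h.pins_sub hK (h.dd_spec k).1 p (h.dd_spec k).2.2).imp_right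
        fun ⟨x, a, b, c⟩ => mem_image.2 ⟨x, a, Prod.ext (c mt.1).symm b.symm⟩)).trans
      ((card_union_le _ _).trans (Nat.add_le_add_left card_image_le _))
  have b3 : (A \ (C.d0 K).pn).card ≤ (PX T st K ∪ LL T st L K).card := by
    refine card_le_card_of_injOn (fun p => inl p.1) (fun p k => ?_) fun p k p' k' j => ?_
    · obtain ⟨k1, k2⟩ := mem_sdiff.1 (mem_coe.1 k)
      obtain ⟨t, r⟩ := a2 p k1
      rcases h.exit hv r with j | j | ⟨x, a, _, c⟩
      exacts [mem_coe.2 (mem_union_right _ j), absurd j k2,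
        mem_coe.2 (mem_union_left _ (by rwa [c mt.1] at a))]
    · obtain ⟨t, r⟩ := a2 p (mem_sdiff.1 (mem_coe.1 k)).1
      obtain ⟨t', r'⟩ := a2 p' (mem_sdiff.1 (mem_coe.1 k')).1
      have j : p.1 = p'.1 := inl_injective j
      exact Prod.ext j ((C.ok K hK).dis _ ((t.inv K hK).subF r.hw) _ ((t.inv K hK).subF r'.hw) _
        r.he (j ▸ r'.he))
  have := card_union_le (PX T st K) (LL T st L K)
  have := le_card_sdiff (C.d0 K).pn A
  obtain ⟨_, _, _, _, _⟩ := mt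
  omega

theorem count (hK : K ∈ C.𝒦) : ((DD T st).filter fun p => C.cq p.2 = K).card +
    4 * ((PX T st K).image T.p).card ≤ 6 * (PX T st K).card + 2 * (LL T st L K).card := by
  have pl : ((PX T st K).image T.p).card ≤ (PX T st K).card := card_image_le
  by_cases c : ∃ v ∈ T.R, ∃ q, (st v).Ent K q ∧ (C.sd K).σ q ≠ (st v).f (st v).q ∧ (st v).MT K q
  · obtain ⟨v, hv, q, en, nq, mt⟩ := c
    have := h.countM hK hv en nq mt
    omega
  have ok := C.ok K hK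
  have i0 : (C.fr K).Wy D (C.sd K) (C.d0 K) (st T.r).f := h.r.2 K hK ▸ (st T.r).inv K hK
  obtain ⟨Q, mQ⟩ : ∃ Q : Finset V, ∀ q, q ∈ Q ↔ q ∈ (C.sd K).En (C.d0 K) ∧ ∃ v ∈ T.R,
      (st v).dat K = C.d0 K ∧ (st v).Ent K q ∧ (C.sd K).σ q ≠ (st v).f (st v).q :=
    ⟨filter _ _, fun _ => mem_filter⟩
  have par : ∀ x ∈ PX T st K, ∃ q ∈ Q, q ∈ (C.fr K).F ∧ ∃ z ∈ (C.fr K).sl q, inl z = T.p x :=
    fun x hx => by
      obtain ⟨q, en, nq, ty⟩ := (h.px_K hx).ent
      obtain ⟨a, b, _⟩ := mem_filter.1 (mem_filter.1 hx).1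
      have pR := T.p_mem x a b
      obtain ⟨rt, hq⟩ := ty.resolve_right fun j => c ⟨_, pR, q, en, nq, j⟩
      have i := (st (T.p x)).inv K hK
      exact ⟨q, (mQ q).2 ⟨hq, _, pR, rt, en, nq⟩, i.rF (i.p1 _ _ en.pn).1, _,
        (i.p1 _ _ en.pn).2.1, (h.z _ pR).1.symm⟩
  rcases Q.eq_empty_or_nonempty with rfl | hQ
  · have e : PX T st K = ∅ := eq_empty_of_forall_notMem fun x hx => by simpa using par x hx
    rw [eq_empty_of_forall_notMem (s := (DD T st).filter fun p => C.cq p.2 = K) fun p k => ?_, e]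
    · simp
    obtain ⟨a, en, -⟩ := h.dd_spec k
    have nq := h.np_of hK a (by simp [e]) en.pn
    have rt : (st (inl p.1)).dat K = C.d0 K :=
      h.dat_ind hK (Q := fun d => d = C.d0 K) rfl (by simp [e]) a
    exact notMem_empty _ ((mQ p.2).2 ⟨rt ▸ (en.alt hK).resolve_right
      fun j => c ⟨_, a, _, en, nq, j⟩, _, a, rt, en, nq⟩)
  have a1 : ((PX T st K).image T.p).card ≤ Q.card * 2 := by
    refine (card_le_card (t := Q.biUnion fun q =>
      (((C.fr K).sl q).filter fun _ => q ∈ (C.fr K).F).image inl) fun v k => ?_).trans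
      (card_biUnion_le_card_mul _ _ 2 fun q _ => card_image_le.trans ?_)
    · obtain ⟨x, hx, rfl⟩ := mem_image.1 k
      obtain ⟨q, a, b, z, d, e⟩ := par x hx
      exact mem_biUnion.2 ⟨q, a, mem_image.2 ⟨z, mem_filter.2 ⟨d, b⟩, e⟩⟩
    · by_cases j : q ∈ (C.fr K).F
      exacts [(card_filter_le _ _).trans (ok.two q j), by simp [j]]
  have a2 : ((DD T st).filter fun p => C.cq p.2 = K).card ≤
      ((C.sd K).En (C.d0 K) ∪ (PX T st K).image fun x => (kx T st x).2).card * 2 := by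
    refine (card_le_card (t := Finset.biUnion _ fun q =>
      (((C.fr K).sl q).filter fun _ => q ∈ (C.fr K).F).image fun z => (z, q)) fun p k => ?_).trans
      (card_biUnion_le_card_mul _ _ 2 fun q _ => card_image_le.trans ?_)
    · obtain ⟨a, en, b⟩ := h.dd_spec k
      have i := (st (inl p.1)).inv K hK
      have j := i.p1 _ _ b
      refine mem_biUnion.2 ⟨p.2, ?_, mem_image.2 ⟨p.1, mem_filter.2 ⟨j.2.1, i.rF j.1⟩, rfl⟩⟩
      by_cases n : inl p.1 ∈ PX T st K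
      · have r := h.px_K n
        exact mem_union_right _ (mem_image.2 ⟨_, n, ok.dis _ (i.subF r.hw) _ (i.rF j.1) _
          r.he j.2.1⟩)
      · exact h.en_sub hK a ((en.alt hK).resolve_right
          fun j => c ⟨_, a, _, en, h.np_of hK a n en.pn, j⟩)
    · by_cases j : q ∈ (C.fr K).F
      exacts [(card_filter_le _ _).trans (ok.two q j), by simp [j]]
  have a3 := card_union_le ((C.sd K).En (C.d0 K)) ((PX T st K).image fun x => (kx T st x).2)
  have a5 : ((PX T st K).image fun x => (kx T st x).2).card ≤ _ := card_image_le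
  obtain ⟨M, mM⟩ : ∃ M : Finset V, ∀ u, u ∈ M ↔ ∃ v ∈ T.R, (st v).dat K = C.d0 K ∧
      ∃ e t, (st v).Pass e t K u := ⟨univ.filter _, fun _ => mem_filter_univ _⟩
  have a4 : Q.card * (((C.sd K).En (C.d0 K)).card + 2) ≤ M.card := by
    refine le_trans ?_ (card_le_card (biUnion_subset.2 fun q (_ : q ∈ Q) =>
      filter_subset (fun u => (C.sd K).σ u = (C.sd K).σ q) M))
    rw [card_biUnion fun q a q' b n => disjoint_left.2 fun u i j => n ((i0.en_le (C.ry K hK)).2 q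
      ((mQ q).1 a).1 q' ((mQ q').1 b).1 ((mem_filter.1 i).2.symm.trans (mem_filter.1 j).2))]
    rw [← smul_eq_mul]
    refine card_nsmul_le_sum Q _ _ fun q k => ?_
    obtain ⟨hq, v, hv, rt, en, nq⟩ := (mQ q).1 k
    obtain ⟨N, n1, n2⟩ := en.exE hK nq rt hq
    exact n1.trans (card_le_card fun u j =>
      mem_filter.2 ⟨(mM u).2 ⟨v, hv, rt, (n2 u j).2⟩, (n2 u j).1⟩)
  have b := card_filter_add_card_filter_not (s := M) fun u => ∃ x ∈ PX T st K, (kx T st x).2 = u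
  have b1 : (M.filter fun u => ∃ x ∈ PX T st K, (kx T st x).2 = u).card ≤ (PX T st K).card :=
    (card_le_card fun u k => mem_image.2 (mem_filter.1 k).2).trans
      (card_image_le (f := fun x => (kx T st x).2))
  have b2 : (M.filter fun u => ¬ ∃ x ∈ PX T st K, (kx T st x).2 = u).card ≤
      (LL T st L K).card := by
    refine card_le_card_of_forall_subsingleton
      (fun u x => u ∈ (C.fr K).F ∧ x.fst ∈ (C.fr K).sl u) (fun u k => ?_)
      fun x _ u k u' k' => ok.dis u k.2.1 u' k'.2.1 _ k.2.2 k'.2.2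
    obtain ⟨v, hv, rt, e, t, p⟩ := (mM u).1 (mem_filter.1 k).1
    refine ⟨inl e, ?_, i0.subF p.hw, p.he⟩
    rcases h.exit hv p with j | j | ⟨x, a, j, _⟩
    exacts [j, absurd p.col (((st v).inv K hK).av _ _ (rt ▸ j)),
      absurd ⟨x, a, j.symm⟩ (mem_filter.1 k).2]
  have := card_pos.2 hQ
  have := Nat.le_mul_of_pos_left ((C.sd K).En (C.d0 K)).card this
  rw [mul_add] at a4
  omega

theorem total : ∑ v ∈ T.R, (T.Dr v ∩ T.Dm).card + 4 * (T.R.filter fun e => T.CX e ≠ ∅).card ≤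
    6 * ∑ e ∈ T.R, (T.CX e).card + 2 * L.card := by
  have a1 := h.dd_le
  have a2 := h.pc_le
  have a3 := h.ll_le
  have a4 : (T.R.filter fun e => T.CX e ≠ ∅).card ≤ ∑ K ∈ C.𝒦, ((PX T st K).image T.p).card :=
    le_trans (card_le_card fun e k => by
      obtain ⟨x, a⟩ := nonempty_iff_ne_empty.2 (mem_filter.1 k).2
      obtain ⟨a, b⟩ := T.mem_CX.1 a
      obtain ⟨a', d, rfl⟩ := T.mem_ch.1 a
      have p : x ∈ PC T := mem_filter.2 ⟨a', d, b⟩
      exact mem_biUnion.2 ⟨_, (h.px_spec p).hK, mem_image.2 ⟨x, mem_filter.2 ⟨p, rfl⟩, rfl⟩⟩)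
      card_biUnion_le
  have key : (DD T st).card + 4 * ∑ K ∈ C.𝒦, ((PX T st K).image T.p).card ≤
      6 * (PC T).card + 2 * ∑ K ∈ C.𝒦, (LL T st L K).card := by
    rw [card_eq_sum_card_fiberwise (s := DD T st) (t := C.𝒦) (f := fun t => C.cq t.2)
        fun t k => (C.hU _ (mem_filter.1 (mem_coe.1 k)).2.1).1,
      card_eq_sum_card_fiberwise (s := PC T) (t := C.𝒦) (f := fun x => (kx T st x).1)
        fun x k => (h.px_spec k).hK, mul_sum, mul_sum, mul_sum, ← sum_add_distrib,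
      ← sum_add_distrib]
    exact sum_le_sum fun K hK => h.count hK
  omega

end Tw

end Cy

end Pool.Agent.Lib.MP_12eaff_co.Frz.Acc2
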