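import Pool.Agent.Lib.MP_12eaff_co.Frz.G.M4
import Pool.Agent.Lib.MP_12eaff_co.Frz.G.M3

set_option autoImplicit false
set_option linter.unusedSectionVars false

namespace Pool.Agent.Lib.MP_12eaff_co.Frz.Acc2

open Finset
open scoped Classical

/-- Static data of one clique: level, number of rooted members and of holders, the two frozen
colours, the pin colour of every member, holders per colour, members that may be pinned. -/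
structure Sy (V : Type) where
  l : ℕ
  k : ℕ
  i : ℕ
  α : ℕ
  β : ℕ
  σ : V → ℕ
  t : ℕ → ℕ
  Mv : Finset V

/-- Moving data of one clique: rooted members, holders, pinned ports (slot, member). -/
structure Dy (V : Type) where
  Rt : Finset V
  Hs : Finset V
  pn : Finset (V × V)

/-- One frozen colour. -/
def Sy.S {V : Type} (c : Sy V) : Prop := c.l = 1 ∧ c.k = 2 ∧ c.i = 2 ∨ c.l = 4 ∧ c.k = 4 ∧ c.i = 1 ∨
  7 ≤ c.l ∧ 4 ≤ c.k ∧ c.k ≤ 5 ∧ 1 ≤ c.i ∧ c.k + c.i + c.l = 17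

/-- Two frozen colours. -/
def Sy.P {V : Type} (c : Sy V) : Prop :=
  c.l = 2 ∧ c.k = 5 ∨ c.l = 3 ∧ c.k = 4 ∨ c.l = 5 ∧ c.k = 3 ∨ c.l = 6 ∧ c.k = 2

/-- Members whose pins can be entries of the first kind. -/
noncomputable def Sy.En {V : Type} (c : Sy V) (d : Dy V) : Finset V :=
  if c.S then (if c.i = 1 then d.Hs else ∅) else d.Rt.filter fun q => ¬ (2 ≤ c.t (c.σ q) ∧ 3 ≤ c.k)

def ta (j : ℕ) : ℕ := if j = 1 then 3 else if j ≤ 4 then 2 else 0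

def tn (j : ℕ) : ℕ :=
  if j ≤ 2 then 6 else if j = 3 then 5 else if j ≤ 5 then 4 else if j = 6 then 3 else 0

namespace Fr

variable {V : Type} [Fintype V] (X : Fr V) (D : ℕ)

structure Vy (f : V → ℕ) : Prop where
  nA : ∀ y < D, 1 ≤ (X.Na f y).card
  nB : ∀ y < D, ∀ z < D, y ≠ z → 2 ≤ (X.Nb f y z).card
  mo : ∀ y < D, 4 ≤ (X.Nm f y).card

/-- The levels. -/
def Gy (f : V → ℕ) (j : ℕ) : Prop := j = 0 ∨ (∃ y < D, (X.Na f y).card < ta j) ∨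
  (∃ y < D, ∃ z < D, y ≠ z ∧ (X.Nb f y z).card < tn j) ∨
  ∃ y < D, (X.Nm f y).card ≤ 5 ∧ (X.Nm f y).card + (X.Na f y).card + j ≤ 17

theorem ex_levy (f : V → ℕ) : ∃ i, ¬ X.Gy D f (i + 1) :=
  ⟨17, by simp [Gy, ta, tn]⟩

noncomputable def levy (f : V → ℕ) : ℕ := Nat.find (X.ex_levy D f)

/-- All slots of the member are pinned. -/
def Fu (d : Dy V) (m : V) : Prop := ∀ z ∈ X.sl m, (z, m) ∈ d.pn

/-- Members outside `R` that do not see `y` twice. -/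
noncomputable def Nt (R : Finset V) (f : V → ℕ) (y : ℕ) : Finset V :=
  (X.F \ R).filter fun w => ¬ X.Mono f w y

/-- The guards. -/
structure Sfy (c : Sy V) (d : Dy V) (f : V → ℕ) : Prop where
  s0 : c.l = 0 → ¬ X.Gy D f 1
  s1 : c.l ≠ 0 → ∀ y < D, y ≠ c.α → y ≠ c.β → (if c.l = 1 then 4 else 3) ≤ (X.Ns d.Rt f y).card
  s2 : c.l = 1 ∨ c.l = 4 → 6 ≤ c.k + (X.Nt d.Rt f c.α).card

/-- The invariant. -/
structure Wy (c : Sy V) (d : Dy V) (f : V → ℕ) : Prop where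
  md : c.l = 0 ∨ c.S ∨ c.P
  la : c.l ≠ 0 → c.α < D ∧ c.β < D
  sub : d.Rt ⊆ c.Mv
  subF : c.Mv ⊆ X.F
  p1 : ∀ z m, (z, m) ∈ d.pn → m ∈ d.Rt ∧ z ∈ X.sl m ∧ f z ≠ c.σ m
  sg : ∀ m, c.σ m = c.α ∨ c.σ m = c.β
  r0 : c.l = 0 → c.Mv = ∅
  mv : c.l = 1 ∨ c.l = 4 → c.Mv = d.Rt
  mvF : ¬ (c.l = 0 ∨ c.l = 1 ∨ c.l = 4) → c.Mv = X.F
  cR : c.l ≠ 0 → d.Rt.card = c.k
  S : c.S → c.β = c.α ∧ d.Hs ⊆ d.Rt ∧ d.Hs.card = c.i ∧ (∀ m ∈ d.Hs, X.Fu d m) ∧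
    ∀ m ∈ d.Rt, (X.sl m).card < 2 ∨ ∃ z, (z, m) ∈ d.pn
  P : c.P → c.α ≠ c.β ∧ (∀ m ∈ d.Rt, X.Fu d m) ∧ ∀ κ, κ = c.α ∨ κ = c.β →
    c.t κ ≤ (d.Rt.filter fun m => c.σ m = κ).card ∧ 1 ≤ c.t κ ∧ (4 ≤ c.k → 2 ≤ c.t κ)
  see : c.l ≠ 0 → ∀ u ∈ X.F \ d.Rt, X.See f u c.α ∧ X.See f u c.β ∨ X.Hl D f u
  mo : 7 ≤ c.l → ∀ u ∈ X.F \ d.Rt, X.Mono f u c.α ∨ X.Hl D f u
  soft : X.Sfy D c d f

/-- The frozen part. -/
structure Fy (c : Sy V) (d : Dy V) (f : V → ℕ) : Prop where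
  see : c.l ≠ 0 → ∀ u ∈ X.F \ d.Rt, X.See f u c.α ∧ X.See f u c.β
  w : c.S → ∀ m ∈ d.Rt, m ∉ d.Hs → X.See f m c.α
  mo : 7 ≤ c.l → ∀ u ∈ X.F \ d.Rt, X.Mono f u c.α

/-- Enough exits on every side that can have an entry. -/
def Ry (c : Sy V) (d : Dy V) : Prop := c.P → ∀ κ, κ = c.α ∨ κ = c.β →
  2 ≤ c.t κ ∧ 3 ≤ c.k ∨ (d.Rt.filter fun m => c.σ m = κ).card ≤ 1 ∧
    4 ≤ ((X.F \ d.Rt).filter fun m => c.σ m = κ).card

/-- The data after a passage with exit `e` at the member `u`. -/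
structure Sty (c : Sy V) (d d' : Dy V) (u e : V) : Prop where
  new : ∀ p ∈ d'.pn, p ∈ d.pn ∨ p.2 = u ∧ (c.S → p.1 = e)
  en : c.En d' ⊆ insert u (c.En d)

/-- `e` is an exit at the member `u` for the hole `z`: the data follow, or the level drops. -/
structure Exy (c : Sy V) (d : Dy V) (f : V → ℕ) (z u e : V) : Prop where
  mv : u ∈ c.Mv
  sl : e ∈ X.sl u
  col : f e = c.σ u
  nx : (∃ d', X.Wy D c d' (shift D f z e) ∧ Sty c d d' u e) ∨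
    X.Vy D (shift D f z e) ∧ ¬ X.Gy D (shift D f z e) c.l

variable {X D} {f : V → ℕ}

theorem levy_le {i : ℕ} (h : ¬ X.Gy D f (i + 1)) : X.levy D f ≤ i := Nat.find_le h

theorem gy_of_le {i : ℕ} (h : i ≤ X.levy D f) : X.Gy D f i := by
  rcases i with _ | i
  · exact .inl rfl
  · exact not_not.1 (Nat.find_min (X.ex_levy D f) h)

theorem levy_spec : ¬ X.Gy D f (X.levy D f + 1) := Nat.find_spec (X.ex_levy D f)

theorem mem_Nt {R : Finset V} {y : ℕ} {w : V} :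
    w ∈ X.Nt R f y ↔ w ∈ X.F \ R ∧ ¬ X.Mono f w y := mem_filter

theorem not_gy {j : ℕ} : ¬ X.Gy D f j ↔ j ≠ 0 ∧ (∀ y < D, ta j ≤ (X.Na f y).card) ∧
    (∀ y < D, ∀ z < D, y ≠ z → tn j ≤ (X.Nb f y z).card) ∧
    ∀ y < D, (X.Nm f y).card ≤ 5 → 17 < (X.Nm f y).card + (X.Na f y).card + j := by
  simp [Gy]

theorem am_le (y : ℕ) : (X.Na f y).card ≤ (X.Nm f y).card := card_le_card (Na_Nm y)

end Fr

end Pool.Agent.Lib.MP_12eaff_co.Frz.Acc2
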