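import Pool.Agent.Lib.MP_12eaff_co.Frz.H.M2

set_option autoImplicit false
set_option linter.unusedSectionVars false

namespace Pool.Agent.Lib.MP_12eaff_co.Frz.Acc2

open Finset
open scoped Classical

namespace Fr

variable {V : Type} [Fintype V] {X : Fr V} {D : ℕ} {c : Sy V} {d : Dy V} {f g : V → ℕ}
  {m u z w q e o : V} {y y' a b : ℕ}

theorem valSy (ho : o ∈ X.Na g a) (m4 : 4 ≤ (X.Nm g a).card)
    (gd : ∀ y < D, y ≠ a → 2 ≤ (X.Na g y).card ∧ 4 ≤ (X.Nm g y).card) : X.Vy D g :=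
  have v := valS ho (by omega) fun y l n => (gd y l n).1
  ⟨v.nA, v.nB, fun y l => by
    by_cases e : y = a
    exacts [e ▸ m4, (gd y l e).2]⟩

theorem valPy (ok : X.OKz) (ab : a ≠ b) (n2 : 2 ≤ (X.Nb g a b).card) {B : Finset V} (hB : B ⊆ X.F)
    (c4 : 4 ≤ B.card) (s : ∀ u ∈ B, X.See g u a ∧ X.See g u b) (na : (X.Na g a).Nonempty)
    (nb : (X.Na g b).Nonempty) : X.Vy D g :=
  have v : X.Vz D g := valP ok ab n2 hB (by omega) s na nb
  ⟨v.nA, v.nB, fun _ _ => c4.trans (card_le_card fun u k =>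
    mem_Nm.2 ⟨hB k, fun r => ab ((ok.mono1 (hB k) r (s u k).1).trans
      (ok.mono1 (hB k) r (s u k).2).symm)⟩)⟩

theorem en_S (s : c.S) (i : c.i = 1) : c.En d = d.Hs := by rw [Sy.En, if_pos s, if_pos i]

theorem en_P (p : c.P) :
    c.En d = d.Rt.filter fun q => ¬ (2 ≤ c.t (c.σ q) ∧ 3 ≤ c.k) := by rw [Sy.En, if_neg p.nS]

namespace Wy

variable (h : X.Wy D c d f)
include h

theorem pn_S (ok : X.OKz) (fz : X.Fy c d f) (s : c.S) : d.pn.card ≤ c.k + c.i := by
  have a := (card_le_card (t := d.Rt.biUnion fun m => ((X.sl m).filter fun z => f z ≠ c.α).image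
    fun z => (z, m)) fun p k => mem_biUnion.2 ⟨p.2, (h.p1 p.1 p.2 k).1, mem_image.2
      ⟨p.1, mem_filter.2 ⟨(h.p1 p.1 p.2 k).2.1, h.sgS s p.2 ▸ h.av _ _ k⟩, rfl⟩⟩).trans
    (card_biUnion_le.trans (sum_le_sum (g := fun m => 1 + if m ∈ d.Hs then 1 else 0)
      fun m k => card_image_le.trans (by
        have := ok.two m (h.rF k)
        split_ifs with j
        · exact (card_filter_le _ _).trans this
        · obtain ⟨x, x1, x2⟩ := fz.w s m k j
          have := card_lt_card (filter_ssubset.2 ⟨x, x1, not_not.2 x2⟩ :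
            (X.sl m).filter (fun z => f z ≠ c.α) ⊂ _)
          omega)))
  rwa [sum_add_distrib, ← card_filter, filter_mem_eq_inter, inter_eq_right.2 (h.S s).2.1,
    ← card_eq_sum_ones, h.cR s.rng.1, (h.S s).2.2.1] at a

theorem off (ok : X.OKz) (hp : (z, q) ∈ d.pn) (hm : m ∈ X.F) (n : m ≠ q) : z ∉ X.sl m :=
  fun j => n (ok.dis m hm q (h.rF (h.p1 z q hp).1) z j (h.p1 z q hp).2.1)

theorem offF (ok : X.OKz) (hp : (z, q) ∈ d.pn) : ∀ m ∈ X.F \ d.Rt, z ∉ X.sl m := fun m k =>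
  h.off ok hp (mem_sdiff.1 k).1 fun j => (mem_sdiff.1 k).2 (j ▸ (h.p1 z q hp).1)

theorem keep (ok : X.OKz) (hp : (z, q) ∈ d.pn) {x : V} (k : (x, m) ∈ d.pn) (n : x ≠ z ∨ m ≠ q) :
    shift D f z e x ≠ c.σ m := by
  have := h.pin_lt k
  by_cases j : x = e
  · rw [j, shift_e]; omega
  · rw [shift_o (n.elim id fun n t => h.off ok hp (h.rF (h.p1 x m k).1) n (t ▸ (h.p1 x m k).2.1)) j]
    exact h.av x m k

theorem entA (ok : X.OKz) (fz : X.Fy c d f) (s : c.S) (i1 : c.i = 1) (hz : D ≤ f z)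
    (hp : (z, q) ∈ d.pn) (hq : q ∈ d.Hs) (wR : w ∈ d.Rt) (wH : w ∉ d.Hs) :
    ∃ e, X.Exy D c d f z w e := by
  obtain ⟨e, e1, e2⟩ := fz.w s w wR wH
  obtain ⟨ba, hR, -, fu, hf⟩ := h.S s
  have wF := h.rF wR
  have la := (h.la s.rng.1).1
  have qw : q ≠ w := fun j => wH (j ▸ hq)
  have ne : (e, w) ∉ d.pn := fun j => h.av _ _ j (e2.trans (h.sgS s _).symm)
  have oe : ∀ u ∈ X.F \ d.Rt, e ∉ X.sl u := fun u k j =>
    (mem_sdiff.1 k).2 (ok.dis _ wF u (mem_sdiff.1 k).1 e e1 j ▸ wR)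
  refine ⟨e, h.sub wR, e1, e2.trans (h.sgS s _).symm, .inl ⟨⟨d.Rt, {w},
    insert (e, w) (d.pn.erase (z, q))⟩, ⟨h.md, h.la, h.sub, h.subF, fun x m k => ?_, h.sg,
    h.r0, h.mv, h.mvF, h.cR, fun _ => ⟨ba, singleton_subset_iff.2 wR, i1.symm ▸ card_singleton w,
      fun m j x k => ?_, fun m j => ?_⟩, fun p => absurd s p.nS,
    fun j u k => .inl ⟨see_keep (fz.see j u k).1 la hz (oe u k),
      see_keep (fz.see j u k).2 (ba ▸ la) hz (oe u k)⟩,
    fun j u k => .inl (mono_keep (fz.mo j u k) la hz (oe u k)),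
    h.soft.mono h.rt0 (fun _ => la) rfl (fun u k y ly t => see_sh t ly (h.offF ok hp u k))
      fun u k y ly t => mono_sh t ly (h.offF ok hp u k)⟩,
    fun p k => (mem_insert.1 k).symm.imp mem_of_mem_erase fun j => by simp [j], ?_⟩⟩
  · rcases mem_insert.1 k with j | j
    · obtain ⟨rfl, rfl⟩ := Prod.mk.inj j
      exact ⟨wR, e1, by rw [shift_e, h.sgS s]; omega⟩
    · obtain ⟨j1, j2⟩ := mem_erase.1 j
      exact ⟨(h.p1 x m j2).1, (h.p1 x m j2).2.1, h.keep ok hp j2 (by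
        by_contra! t
        exact j1 (Prod.ext t.1 t.2))⟩
  · obtain rfl := mem_singleton.1 j
    by_cases j : x = e
    · exact j ▸ mem_insert_self _ _
    refine mem_insert_of_mem (mem_erase.2 ⟨fun t => qw (Prod.mk.inj t).2.symm, ?_⟩)
    rcases hf m wR with t | ⟨t, t1⟩
    · have : 1 < (X.sl m).card := one_lt_card.2 ⟨x, k, e, e1, j⟩
      omega
    · rcases ok.slot3 wF k e1 (h.p1 _ _ t1).2.1 j with rfl | rfl
      exacts [t1, absurd t1 ne]
  · by_cases t : m = q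
    · subst t
      refine or_iff_not_imp_left.2 fun n => ?_
      obtain ⟨x, x1, x2⟩ := exists_mem_ne (show 1 < (X.sl m).card by omega) z
      exact ⟨x, mem_insert_of_mem (mem_erase.2 ⟨fun t => x2 (Prod.mk.inj t).1, fu m hq x x1⟩)⟩
    · exact (hf m j).imp_right fun ⟨x, r⟩ =>
        ⟨x, mem_insert_of_mem (mem_erase.2 ⟨fun i => t (Prod.mk.inj i).2, r⟩)⟩
  · rw [en_S s i1]
    exact singleton_subset_iff.2 (mem_insert_self _ _)

theorem entM (ok : X.OKz) (fz : X.Fy c d f) (s : c.S) (l : 7 ≤ c.l) (hz : D ≤ f z)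
    (hp : (z, q) ∈ d.pn) (hq : q ∉ d.Hs) (hu : u ∈ X.F \ d.Rt) (e1 : e ∈ X.sl u) :
    X.Exy D c d f z u e := by
  obtain ⟨qR, zs, -⟩ := h.p1 z q hp
  obtain ⟨x, x1, x2⟩ := fz.w s q qR hq
  obtain ⟨ba, hR, ci, fu, hf⟩ := h.S s
  obtain ⟨uF, uR⟩ := mem_sdiff.1 hu
  have e2 : f e = c.α := ok.mono1 uF (fz.mo l u hu) ⟨e, e1, rfl⟩
  have la := (h.la s.rng.1).1
  have mF := h.mvF (by omega)
  have RF : insert u (d.Rt.erase q) ⊆ X.F := insert_subset uF ((erase_subset _ _).trans h.rF)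
  have mo : ∀ v ∈ X.F \ insert u (d.Rt.erase q), X.Mono (shift D f z e) v c.α := fun v k => by
    obtain ⟨vF, k⟩ := mem_sdiff.1 k
    rw [mem_insert, not_or, mem_erase] at k
    have oe : e ∉ X.sl v := fun j => k.1 (ok.dis v vF u uF e j e1)
    by_cases j : v = q
    · subst j
      have xz : x ≠ z := fun j => by subst j; omega
      exact ⟨x, x1, z, zs, xz, (shift_o xz fun j : x = e => oe (j ▸ x1)).trans x2,
        (shift_z fun j : z = e => oe (j ▸ zs)).trans e2⟩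
    · exact mono_keep (fz.mo l v (mem_sdiff.2 ⟨vF, fun t => k.2 ⟨j, t⟩⟩)) la hz oe
  have cR' := card_swap qR uR
  refine ⟨mF ▸ uF, e1, e2.trans (h.sgS s _).symm, .inl ⟨⟨insert u (d.Rt.erase q), d.Hs,
    insert (e, u) (d.pn.filter fun p => p.2 ≠ q)⟩, ⟨h.md, h.la, mF ▸ RF, h.subF,
    fun a m k => ?_, h.sg, h.r0, fun j => by omega, h.mvF, fun j => cR'.trans (h.cR j),
    fun _ => ⟨ba, fun m j => mem_insert_of_mem (mem_erase.2 ⟨fun t => hq (t ▸ j), hR j⟩), ci,
      fun m j a k => mem_insert_of_mem (mem_filter.2 ⟨fu m j a k, fun t => hq (t ▸ j)⟩),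
      fun m j => ?_⟩, fun p => absurd s p.nS,
    fun _ v k => .inl ⟨(mo v k).see, ba ▸ (mo v k).see⟩, fun _ v k => .inl (mo v k),
    fun j => by omega, fun _ y ly n _ => ?_, fun j => by omega⟩,
    fun p k => (mem_insert.1 k).symm.imp (fun j => (mem_filter.1 j).1) fun j => by simp [j], ?_⟩⟩
  · rcases mem_insert.1 k with j | j
    · obtain ⟨rfl, rfl⟩ := Prod.mk.inj j
      exact ⟨mem_insert_self _ _, e1, by rw [shift_e, h.sgS s]; omega⟩
    · obtain ⟨j1, j2⟩ := mem_filter.1 j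
      exact ⟨mem_insert_of_mem (mem_erase.2 ⟨j2, (h.p1 _ _ j1).1⟩), (h.p1 _ _ j1).2.1,
        h.keep ok hp j1 (.inr j2)⟩
  · rcases mem_insert.1 j with rfl | j
    · exact .inr ⟨e, mem_insert_self _ _⟩
    · exact (hf m (mem_erase.1 j).2).imp_right fun ⟨x, r⟩ =>
        ⟨x, mem_insert_of_mem (mem_filter.2 ⟨r, (mem_erase.1 j).1⟩)⟩
  · have := card_le_card (s := X.F \ insert u (d.Rt.erase q))
      (t := X.Ns (insert u (d.Rt.erase q)) (shift D f z e) y) fun v i =>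
        mem_Ns.2 ⟨i, fun r => n (ok.mono1 (mem_sdiff.1 i).1 (mo v i) r)⟩
    have := card_sdiff_add_card_eq_card RF
    have := h.big ok s.rng.1
    have := h.cardF
    have := h.cR s.rng.1
    dsimp only
    split_ifs <;> omega
  · rw [Sy.En, Sy.En, if_pos s, if_pos s]
    exact subset_insert _ _

theorem entP (ok : X.OKz) (fz : X.Fy c d f) (p : c.P) (k4 : c.k ≤ 3) (hz : D ≤ f z)
    (hp : (z, q) ∈ d.pn) (hu : u ∈ X.F \ d.Rt) (su : c.σ u = c.σ q) :
    ∃ e, X.Exy D c d f z u e := by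
  obtain ⟨ab, fu, cT⟩ := h.P p
  obtain ⟨k2, -, l0, l1, l4, l6⟩ := p.rng
  obtain ⟨la, lb⟩ := h.la l0
  obtain ⟨uF, uR⟩ := mem_sdiff.1 hu
  obtain ⟨qR, zq, -⟩ := h.p1 z q hp
  have qF := h.rF qR
  have mF := h.mvF (by omega)
  have cF := h.cardF
  have cR := h.cR l0
  have cn := ok.card
  obtain ⟨κ', nκ, iκ, bo⟩ : ∃ κ', c.σ q ≠ κ' ∧ (κ' = c.α ∨ κ' = c.β) ∧ ∀ g m,
      (X.See g m (c.σ q) ∧ X.See g m κ' ↔ X.See g m c.α ∧ X.See g m c.β) := by
    rcases h.sg q with e | e <;> rw [e]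
    exacts [⟨_, ab, .inr rfl, fun _ _ => Iff.rfl⟩, ⟨_, ab.symm, .inl rfl, fun _ _ => and_comm⟩]
  have lκ : κ' < D := by omega
  have lq := h.pin_lt hp
  obtain ⟨⟨e, e1, e2⟩, e', e3, e4⟩ := (bo f u).2 (fz.see l0 u hu)
  have ee : e ≠ e' := fun j => nκ (by rw [← e2, j, e4])
  have zu := h.offF ok hp u hu
  have oe : ∀ v ∈ X.F, v ≠ u → e ∉ X.sl v := fun v k n j => n (ok.dis v k u uF e j e1)
  have qu : q ≠ u := fun j => uR (j ▸ qR)
  have au : ∀ x ∈ X.sl u, shift D f z e x ≠ c.σ u := fun x k => by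
    rcases ok.slot3 uF e1 e3 k ee with rfl | rfl
    · rw [shift_e, su]; omega
    · rw [shift_o (fun j : x = z => zu (j ▸ k)) ee.symm, e4, su]; exact nκ.symm
  have kb : ∀ v ∈ X.F \ d.Rt, v ≠ u → X.See (shift D f z e) v c.α ∧ X.See (shift D f z e) v c.β :=
    fun v k n => ⟨see_keep (fz.see l0 v k).1 la hz (oe v (mem_sdiff.1 k).1 n),
      see_keep (fz.see l0 v k).2 lb hz (oe v (mem_sdiff.1 k).1 n)⟩
  have nm : ∀ m ∈ d.Rt, m ≠ q → ¬ X.See (shift D f z e) m (c.σ m) := fun m k n =>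
    fu_not (fu m k) fun x j => h.keep ok hp j (.inr n)
  refine ⟨e, mF ▸ uF, e1, e2.trans su.symm, ?_⟩
  by_cases sq : X.See f q κ'
  · have RF : insert u (d.Rt.erase q) ⊆ X.F := insert_subset uF ((erase_subset _ _).trans h.rF)
    have bt : ∀ v ∈ X.F \ insert u (d.Rt.erase q),
        X.See (shift D f z e) v c.α ∧ X.See (shift D f z e) v c.β := fun v k => by
      obtain ⟨vF, k⟩ := mem_sdiff.1 k
      rw [mem_insert, not_or, mem_erase] at k
      by_cases j : v = q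
      · subst j
        exact (bo _ _).1 ⟨⟨z, zq, (shift_z fun j : z = e => zu (j ▸ e1)).trans e2⟩,
          see_keep sq lκ hz (oe v vF k.1)⟩
      · exact kb v (mem_sdiff.2 ⟨vF, fun t => k.2 ⟨j, t⟩⟩) k.1
    have cR' := card_swap qR uR
    refine .inl ⟨⟨insert u (d.Rt.erase q), d.Hs, (d.pn.filter fun p => p.2 ≠ q) ∪
      (X.sl u).image fun x => (x, u)⟩, ⟨h.md, h.la, mF ▸ RF, h.subF, fun x m k => ?_, h.sg, h.r0,
      fun j => by omega, h.mvF, fun _ => cR'.trans cR, fun s => absurd s p.nS,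
      fun _ => ⟨ab, fun m j x i => ?_, fun κ i => ⟨(cT κ i).1.trans ?_, (cT κ i).2⟩⟩,
      fun _ v j => .inl (bt v j), fun j => by omega, fun j => by omega, fun _ y ly n n' => ?_,
      fun j => by omega⟩, fun r j => (mem_union.1 j).imp (fun t => (mem_filter.1 t).1) fun t => ?_,
      fun m j => ?_⟩
    · rcases mem_union.1 k with j | j
      · obtain ⟨j1, j2⟩ := mem_filter.1 j
        exact ⟨mem_insert_of_mem (mem_erase.2 ⟨j2, (h.p1 x m j1).1⟩), (h.p1 x m j1).2.1,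
          h.keep ok hp j1 (.inr j2)⟩
      · obtain ⟨x', j1, j2⟩ := mem_image.1 j
        obtain ⟨rfl, rfl⟩ := Prod.mk.inj j2
        exact ⟨mem_insert_self _ _, j1, au _ j1⟩
    · rcases mem_insert.1 j with rfl | j
      · exact mem_union_right _ (mem_image.2 ⟨x, i, rfl⟩)
      · exact mem_union_left _ (mem_filter.2 ⟨fu m (mem_erase.1 j).2 x i, (mem_erase.1 j).1⟩)
    · by_cases j : c.σ q = κ
      · rw [← card_swap (mem_filter.2 ⟨qR, j⟩ : q ∈ d.Rt.filter fun m => c.σ m = κ)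
          fun t => uR (mem_filter.1 t).1]
        refine card_le_card fun m t => ?_
        rcases mem_insert.1 t with rfl | t
        · exact mem_filter.2 ⟨mem_insert_self _ _, su.trans j⟩
        · obtain ⟨t1, t2⟩ := mem_erase.1 t
          exact mem_filter.2 ⟨mem_insert_of_mem (mem_erase.2 ⟨t1, (mem_filter.1 t2).1⟩),
            (mem_filter.1 t2).2⟩
      · exact card_le_card fun m t => mem_filter.2 ⟨mem_insert_of_mem (mem_erase.2
          ⟨fun r => j (r ▸ (mem_filter.1 t).2), (mem_filter.1 t).1⟩), (mem_filter.1 t).2⟩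
    · have := card_le_card (s := X.F \ insert u (d.Rt.erase q))
        (t := X.Ns (insert u (d.Rt.erase q)) (shift D f z e) y) fun v i => mem_Ns.2 ⟨i, fun r =>
          (ok.see3 (mem_sdiff.1 i).1 (bt v i).1 (bt v i).2 r ab).elim n n'⟩
      have := card_sdiff_add_card_eq_card RF
      dsimp only
      split_ifs <;> omega
    · obtain ⟨x, _, rfl⟩ := mem_image.1 t
      exact ⟨rfl, fun s => absurd s p.nS⟩
    · rw [en_P p] at j ⊢
      obtain ⟨j1, j2⟩ := mem_filter.1 j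
      exact mem_insert.2 ((mem_insert.1 j1).imp_right fun t =>
        mem_filter.2 ⟨(mem_erase.1 t).2, j2⟩)
  · have RF : insert u d.Rt ⊆ X.F := insert_subset uF h.rF
    have cI := card_insert_of_notMem uR
    have cI' := card_sdiff_add_card_eq_card RF
    have nq : ¬ X.See (shift D f z e) q κ' := fun t =>
      (see_up ((see_up t).resolve_left lκ.ne)).elim (fun j => nκ (e2 ▸ j.symm)) sq
    have nu : ¬ X.See (shift D f z e) u (c.σ q) := fun ⟨x, i, j⟩ => au x i (j.trans su.symm)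
    have nb : ∀ m ∈ insert u d.Rt,
        ¬ (X.See (shift D f z e) m c.α ∧ X.See (shift D f z e) m c.β) := fun m j t => by
      rcases mem_insert.1 j with rfl | j
      · exact nu ((bo _ _).2 t).1
      by_cases i : m = q
      · exact nq (i ▸ ((bo _ _).2 t).2)
      · have := nm m j i
        rcases h.sg m with r | r <;> rw [r] at this
        exacts [this t.1, this t.2]
    have bt : ∀ v ∈ X.F \ insert u d.Rt,
        X.See (shift D f z e) v c.α ∧ X.See (shift D f z e) v c.β := fun v k => by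
      obtain ⟨vF, k⟩ := mem_sdiff.1 k
      rw [mem_insert, not_or] at k
      exact kb v (mem_sdiff.2 ⟨vF, k.2⟩) k.1
    have cp := fun y ly y' ly' n => (core_P ok ab RF (by omega) nb (fun v j => .inl (bt v j))
      (D := D) (y := y) (y' := y') ly ly' n).1
    have n1 : (X.Na (shift D f z e) (c.σ q)).Nonempty := ⟨u, mem_Na.2 ⟨uF, nu⟩⟩
    have n2 : (X.Na (shift D f z e) κ').Nonempty := ⟨q, mem_Na.2 ⟨qF, nq⟩⟩
    have n3 : ∀ y, y = c.α ∨ y = c.β → (X.Na (shift D f z e) y).Nonempty := fun y j => by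
      obtain rfl | rfl : y = c.σ q ∨ y = κ' := by have := h.sg q; omega
      exacts [n1, n2]
    refine .inr ⟨valPy ok ab (by have := cp _ la _ lb ab; omega) sdiff_subset (by omega) bt
      (n3 _ (.inl rfl)) (n3 _ (.inr rfl)), not_gy.2 ⟨l0, fun y _ => ?_, fun y a y' b n => ?_,
        fun y _ t => ?_⟩⟩
    · unfold Sy.P at p; unfold ta; split_ifs <;> omega
    · have := cp y a y' b n
      unfold Sy.P at p; unfold tn; split_ifs <;> omega
    · have := card_le_card (s := X.F \ insert u d.Rt) (t := X.Nm (shift D f z e) y) fun v k =>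
        mem_Nm.2 ⟨(mem_sdiff.1 k).1, fun r => ab ((ok.mono1 (mem_sdiff.1 k).1 r (bt v k).1).trans
          (ok.mono1 (mem_sdiff.1 k).1 r (bt v k).2).symm)⟩
      omega

theorem en_le (r : X.Ry c d) :
    (c.En d).card ≤ 2 ∧ ∀ q ∈ c.En d, ∀ q' ∈ c.En d, c.σ q = c.σ q' → q = q' := by
  by_cases s : c.S
  · by_cases i : c.i = 1
    · have := (h.S s).2.2.1
      rw [en_S s i]
      exact ⟨by omega, fun q a q' b _ => card_le_one.1 (by omega) q a q' b⟩
    · simp [Sy.En, s, i]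
  rcases h.md with l | j | p
  · simp [Sy.En, s, h.rt0 l]
  · exact absurd j s
  have k : ∀ q ∈ c.En d, ∀ q' ∈ c.En d, c.σ q = c.σ q' → q = q' := fun q a q' b e => by
    rw [en_P p, mem_filter] at a b
    exact card_le_one.1 ((r p _ (h.sg q)).resolve_left a.2).1 q (mem_filter.2 ⟨a.1, rfl⟩) q'
      (mem_filter.2 ⟨b.1, e.symm⟩)
  exact ⟨(card_le_card_of_injOn (t := {c.α, c.β}) c.σ (fun q _ => by simpa using h.sg q)
    fun q a q' b e => k q a q' b e).trans card_le_two, k⟩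

/-- An entry of the first kind at the root data has exits. -/
theorem entE (ok : X.OKz) (fz : X.Fy c d f) (r : X.Ry c d) (hz : D ≤ f z) (hp : (z, q) ∈ d.pn)
    (hq : q ∈ c.En d) : ∃ M : Finset V, (c.En d).card + 2 ≤ M.card ∧
      ∀ u ∈ M, c.σ u = c.σ q ∧ ∃ e, X.Exy D c d f z u e := by
  have l0 := h.l0 (h.p1 z q hp).1
  rcases h.md.resolve_left l0 with s | p
  · have i : c.i = 1 := by_contra fun i => by simp [Sy.En, s, i] at hq
    rw [en_S s i] at hq ⊢
    refine ⟨d.Rt \ d.Hs, ?_, fun u k => ⟨(h.sgS s _).trans (h.sgS s _).symm,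
      h.entA ok fz s i hz hp hq (mem_sdiff.1 k).1 (mem_sdiff.1 k).2⟩⟩
    have := card_sdiff_add_card_eq_card (h.S s).2.1
    have := (h.S s).2.2.1
    have := h.cR l0
    unfold Sy.S at s
    omega
  · have n := (mem_filter.1 (en_P p ▸ hq)).2
    have := ((h.P p).2.2 _ (h.sg q)).2.2
    have := (h.en_le r).1
    have := ((r p _ (h.sg q)).resolve_left n).2
    exact ⟨(X.F \ d.Rt).filter fun m => c.σ m = c.σ q, by omega, fun u j =>
      ⟨(mem_filter.1 j).2, h.entP ok fz p (by omega) hz hp (mem_filter.1 j).1 (mem_filter.1 j).2⟩⟩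

/-- An entry of the second kind has many exits. -/
theorem entN (ok : X.OKz) (fz : X.Fy c d f) (hz : D ≤ f z) (hp : (z, q) ∈ d.pn) (s : c.S)
    (l : 7 ≤ c.l) (k4 : c.k = 4) (hq : q ∉ d.Hs) : ∃ A : Finset (V × V), 14 ≤ A.card ∧
      ∀ p ∈ A, c.σ p.2 = c.σ q ∧ X.Exy D c d f z p.2 p.1 := by
  refine ⟨(X.F \ d.Rt).biUnion fun u => (X.sl u).image fun e => (e, u), ?_, fun p k => ?_⟩
  · rw [card_biUnion fun u _ v _ n => disjoint_left.2 fun p a b => by
      obtain ⟨_, _, rfl⟩ := mem_image.1 a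
      obtain ⟨_, _, j⟩ := mem_image.1 b
      exact n (Prod.mk.inj j).2.symm]
    refine le_trans ?_ (card_nsmul_le_sum _ _ 2 fun u k => ?_)
    · have := h.big ok s.rng.1
      rw [smul_eq_mul]
      omega
    · obtain ⟨x, hx, y, hy, xy, -⟩ := fz.mo l u k
      rw [card_image_of_injective _ fun a b e => (Prod.mk.inj e).1]
      exact one_lt_card.2 ⟨x, hx, y, hy, xy⟩
  · obtain ⟨u, a, b⟩ := mem_biUnion.1 k
    obtain ⟨e, b', rfl⟩ := mem_image.1 b
    exact ⟨(h.sgS s _).trans (h.sgS s _).symm, h.entM ok fz s l hz hp hq a b'⟩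

/-- The two kinds of entries. -/
theorem ent (ok : X.OKz) (fz : X.Fy c d f) (hp : (z, q) ∈ d.pn)
    (n : ¬ X.Vy D (Function.update f z (c.σ q))) :
    q ∈ c.En d ∨ c.S ∧ 7 ≤ c.l ∧ c.k = 4 ∧ c.i ≤ 3 ∧ q ∉ d.Hs := by
  obtain ⟨qR, zq, -⟩ := h.p1 z q hp
  have l0 := h.l0 qR
  have sf := h.soft_off (h.offF ok hp) (c.σ q)
  have bg := h.big ok l0
  have cR := h.cR l0
  have up : ∀ m ∈ X.F, m ≠ q → ∀ y, ¬ X.See f m y → m ∈ X.Na (Function.update f z (c.σ q)) y :=
    fun m k j y t => mem_Na.2 ⟨k, fun i => t ((see_off (h.off ok hp k j) _ _).1 i)⟩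
  rcases h.md.resolve_left l0 with s | p
  · obtain ⟨ba, hR, ci, -⟩ := h.S s
    have gd : ∀ y < D, y ≠ c.α → 2 ≤ (X.Na (Function.update f z (c.σ q)) y).card ∧
        4 ≤ (X.Nm (Function.update f z (c.σ q)) y).card := fun y l j => by
      have := (sf.s1 l0 y l j (ba ▸ j)).trans (card_le_card (Ns_Na _ _))
      have := card_le_card (s := X.F \ d.Rt) (t := X.Nm (Function.update f z (c.σ q)) y)
        fun u k => mem_Nm.2 ⟨(mem_sdiff.1 k).1, fun t => h.nm_off ok l0 l (.inl j) k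
          ((mono_off (h.offF ok hp u k) _ _).1 t)⟩
      split_ifs at * <;> omega
    have cnt : ∀ R ⊆ d.Rt, R ⊆ X.Nm (Function.update f z (c.σ q)) c.α →
        R.card + (X.Nt d.Rt (Function.update f z (c.σ q)) c.α).card ≤
          (X.Nm (Function.update f z (c.σ q)) c.α).card := fun R a b => by
      rw [← card_union_of_disjoint (disjoint_left.2 fun m p r =>
        (mem_sdiff.1 (mem_Nt.1 r).1).2 (a p))]
      exact card_le_card (union_subset b fun m k =>
        mem_Nm.2 ⟨(mem_sdiff.1 (mem_Nt.1 k).1).1, (mem_Nt.1 k).2⟩)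
    have oth : ∀ m ∈ d.Rt, m ≠ q → m ∈ X.Nm (Function.update f z (c.σ q)) c.α := fun m k j =>
      mem_Nm.2 ⟨h.rF k, fun t => (mem_Nm.1 (h.rt_Nm ok s h.av k)).2
        ((mono_off (h.off ok hp (h.rF k) j) _ _).1 t)⟩
    have hol : ∀ o ∈ d.Hs, o ≠ q → o ∈ X.Na (Function.update f z (c.σ q)) c.α := fun o k j =>
      up o (h.rF (hR k)) j _ (mem_Na.1 (h.hs_Na s h.av k)).2
    have s2 := sf.s2
    by_cases j : q ∈ d.Hs
    · refine .inl (by_contra fun t => n ?_)
      have i : c.i ≠ 1 := fun i => t (en_S s i ▸ j)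
      obtain ⟨o, o1, o2⟩ := exists_mem_ne (show 1 < d.Hs.card by have := s.rng; omega) q
      have := cnt _ Subset.rfl fun m k => by
        by_cases e : m = q
        · exact mem_Nm.2 ⟨h.rF k, fun t => (mem_Na.1 (h.hs_Na s h.av j)).2
            (e ▸ L1.mono_upd_see t)⟩
        · exact oth m k e
      exact valSy (hol o o1 o2) (by unfold Sy.S at s; omega) gd
    · refine .inr ⟨s, by_contra fun t => n ?_⟩
      obtain ⟨o, o1⟩ := card_pos.1 (show 0 < d.Hs.card by have := s.rng; omega)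
      have := cnt _ (erase_subset q _) fun m k => oth m (mem_erase.1 k).2 (mem_erase.1 k).1
      have := card_lt_card (Finset.ssubset_iff_subset_ne.2 ⟨hR, fun e => j (e ▸ qR)⟩)
      rw [card_erase_of_mem qR] at *
      refine valSy (hol o o1 fun e => j (e ▸ o1)) ?_ gd
      simp only [j, not_false_eq_true, and_true] at t
      unfold Sy.S at s
      omega
  obtain ⟨ab, fu, cT⟩ := h.P p
  refine .inl (en_P p ▸ mem_filter.2 ⟨qR, fun t => n ?_⟩)
  have nm : ∀ m ∈ d.Rt, m ≠ q → m ∈ X.Na (Function.update f z (c.σ q)) (c.σ m) := fun m j i =>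
    up m (h.rF j) i _ (fu_not (fu m j) fun x => h.av x m)
  have n3 : ∀ y, y = c.α ∨ y = c.β → (X.Na (Function.update f z (c.σ q)) y).Nonempty :=
    fun y j => by
      by_cases i : y = c.σ q
      · obtain ⟨o, o1, o2⟩ := exists_mem_ne (t.1.trans (cT _ (h.sg q)).1) q
        have := nm o (mem_filter.1 o1).1 o2
        rw [(mem_filter.1 o1).2] at this
        exact ⟨o, by rw [i]; exact this⟩
      · obtain ⟨o, o1⟩ := card_pos.1 ((cT y j).2.1.trans (cT y j).1)
        obtain ⟨o2, rfl⟩ := mem_filter.1 o1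
        exact ⟨o, nm o o2 fun r => i (r ▸ rfl)⟩
  have bt : ∀ u ∈ X.F \ d.Rt, X.See (Function.update f z (c.σ q)) u c.α ∧
      X.See (Function.update f z (c.σ q)) u c.β := fun u j => by
    rw [see_off (h.offF ok hp u j), see_off (h.offF ok hp u j)]
    exact fz.see l0 u j
  refine valPy ok ab (le_trans ?_ (card_le_card (s := d.Rt.erase q) fun m j => ?_))
    sdiff_subset (by omega) bt (n3 _ (.inl rfl)) (n3 _ (.inr rfl))
  · rw [card_erase_of_mem qR]; omega
  · have := mem_Na.1 (nm m (mem_erase.1 j).2 (mem_erase.1 j).1)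
    refine mem_Nb.2 ⟨this.1, fun i => this.2 ?_⟩
    rcases h.sg m with e | e <;> rw [e]
    exacts [i.1, i.2]

end Wy

end Fr

end Pool.Agent.Lib.MP_12eaff_co.Frz.Acc2
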